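import Pool.Agent.W745.RW.Stm

set_option autoImplicit false

open MeasureTheory Filter Topology Complex
open scoped ContDiff
open Pool.Agent.W745.RW

namespace Pool.Agent.W924.RW.WP

noncomputable section

variable {B : Set ℂ} {h : ℝ}

theorem fd_smooth {E : Type*} [NormedAddCommGroup E] [NormedSpace ℝ E] (hB : IsOpen B)
    {g : ℂ → E} (hg : ContDiffOn ℝ ∞ g B) : ContDiffOn ℝ ∞ (fderiv ℝ g) B :=
  hg.fderiv_of_isOpen hB (by simp)

theorem dx_smooth {E : Type*} [NormedAddCommGroup E] [NormedSpace ℝ E] (hB : IsOpen B)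
    {g : ℂ → E} (hg : ContDiffOn ℝ ∞ g B) : ContDiffOn ℝ ∞ (dx g) B :=
  (fd_smooth hB hg).clm_apply contDiffOn_const

theorem dy_smooth {E : Type*} [NormedAddCommGroup E] [NormedSpace ℝ E] (hB : IsOpen B)
    {g : ℂ → E} (hg : ContDiffOn ℝ ∞ g B) : ContDiffOn ℝ ∞ (dy g) B :=
  (fd_smooth hB hg).clm_apply contDiffOn_const

theorem diffAt {E : Type*} [NormedAddCommGroup E] [NormedSpace ℝ E] (hB : IsOpen B)
    {g : ℂ → E} (hg : ContDiffOn ℝ ∞ g B) {z : ℂ} (hz : z ∈ B) : DifferentiableAt ℝ g z :=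
  (hg.contDiffAt (hB.mem_nhds hz)).differentiableAt (by simp)

/-- symmetry -/
theorem symm {E : Type*} [NormedAddCommGroup E] [NormedSpace ℝ E] (hB : IsOpen B)
    {g : ℂ → E} (hg : ContDiffOn ℝ ∞ g B) {z : ℂ} (hz : z ∈ B) :
    dx (dy g) z = dy (dx g) z := by
  have h1 : IsSymmSndFDerivAt ℝ g z :=
    (hg.contDiffAt (hB.mem_nhds hz)).isSymmSndFDerivAt
      (by simp; exact WithTop.coe_le_coe.2 (le_top (a := (2 : ℕ∞))))
  have h2 := diffAt hB (fd_smooth hB hg) hz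
  have h3 : ∀ v w : ℂ, fderiv ℝ (fun y => fderiv ℝ g y v) z w = fderiv ℝ (fderiv ℝ g) z w v := by
    intro v w
    rw [fderiv_clm_apply h2 (differentiableAt_const v)]
    simp
  show fderiv ℝ (fun y => fderiv ℝ g y I) z 1 = fderiv ℝ (fun y => fderiv ℝ g y 1) z I
  rw [h3, h3]
  exact h1 1 I

theorem congr {E : Type*} [NormedAddCommGroup E] [NormedSpace ℝ E] (hB : IsOpen B)
    {f g : ℂ → E} (hfg : ∀ z ∈ B, f z = g z) {z : ℂ} (hz : z ∈ B) :
    fderiv ℝ f z = fderiv ℝ g z := by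
  apply Filter.EventuallyEq.fderiv_eq
  filter_upwards [hB.mem_nhds hz] with w hw
  exact hfg w hw

theorem Dp_congr (hB : IsOpen B) {f g : ℂ → ℂ} (hfg : ∀ z ∈ B, f z = g z) {z : ℂ} (hz : z ∈ B) :
    Dp h f z = Dp h g z := by
  simp only [Dp, dx, dy, congr hB hfg hz]

theorem Dm_congr (hB : IsOpen B) {f g : ℂ → ℂ} (hfg : ∀ z ∈ B, f z = g z) {z : ℂ} (hz : z ∈ B) :
    Dm h f z = Dm h g z := by
  simp only [Dm, dx, dy, congr hB hfg hz]

theorem Dp_smooth (hB : IsOpen B) {g : ℂ → ℂ} (hg : ContDiffOn ℝ ∞ g B) :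
    ContDiffOn ℝ ∞ (Dp h g) B :=
  contDiffOn_const.mul ((dx_smooth hB hg).sub (contDiffOn_const.mul (dy_smooth hB hg)))

theorem Dm_smooth (hB : IsOpen B) {g : ℂ → ℂ} (hg : ContDiffOn ℝ ∞ g B) :
    ContDiffOn ℝ ∞ (Dm h g) B :=
  contDiffOn_const.mul ((dx_smooth hB hg).add (contDiffOn_const.mul (dy_smooth hB hg)))

theorem fd_cmul {g : ℂ → ℂ} {z : ℂ} (hg : DifferentiableAt ℝ g z) (c v : ℂ) :
    fderiv ℝ (fun w => c * g w) z v = c * fderiv ℝ g z v := by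
  have h1 : HasFDerivAt (fun w => c * g w) (c • fderiv ℝ g z) z := hg.hasFDerivAt.const_mul c
  rw [h1.fderiv]
  rfl

theorem Dp_cmul {g : ℂ → ℂ} {z : ℂ} (hg : DifferentiableAt ℝ g z) (c : ℂ) :
    Dp h (fun w => c * g w) z = c * Dp h g z := by
  simp only [Dp, dx, dy, fd_cmul hg]
  ring

theorem Dm_cmul {g : ℂ → ℂ} {z : ℂ} (hg : DifferentiableAt ℝ g z) (c : ℂ) :
    Dm h (fun w => c * g w) z = c * Dm h g z := by
  simp only [Dm, dx, dy, fd_cmul hg]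
  ring

theorem fd_lin {f g : ℂ → ℂ} {z : ℂ} (hf : DifferentiableAt ℝ f z) (hg : DifferentiableAt ℝ g z)
    (a c v : ℂ) : fderiv ℝ (fun w => a * (f w + c * g w)) z v =
      a * (fderiv ℝ f z v + c * fderiv ℝ g z v) := by
  have h1 : HasFDerivAt (fun w => a * (f w + c * g w))
      (a • (fderiv ℝ f z + c • fderiv ℝ g z)) z :=
    (hf.hasFDerivAt.add (hg.hasFDerivAt.const_mul c)).const_mul a
  rw [h1.fderiv]
  rfl

theorem DpDm (hB : IsOpen B) {g : ℂ → ℂ} (hg : ContDiffOn ℝ ∞ g B) {z : ℂ} (hz : z ∈ B) :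
    Dp h (Dm h g) z = (h : ℂ) ^ 2 * lap g z := by
  have h1 := diffAt hB (dx_smooth hB hg) hz
  have h2 := diffAt hB (dy_smooth hB hg) hz
  have h3 : ∀ v, fderiv ℝ (Dm h g) z v =
      h * (fderiv ℝ (dx g) z v + I * fderiv ℝ (dy g) z v) := fun v => fd_lin h1 h2 h I v
  have h4 := symm hB hg hz
  simp only [dx, dy] at h4
  unfold Dp lap
  simp only [dx, dy] at h3 ⊢
  rw [h3, h3, h4]
  ring_nf
  simp only [I_sq]
  ring

theorem DmDp (hB : IsOpen B) {g : ℂ → ℂ} (hg : ContDiffOn ℝ ∞ g B) {z : ℂ} (hz : z ∈ B) :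
    Dm h (Dp h g) z = (h : ℂ) ^ 2 * lap g z := by
  have h1 := diffAt hB (dx_smooth hB hg) hz
  have h2 := diffAt hB (dy_smooth hB hg) hz
  have h3 : ∀ v, fderiv ℝ (Dp h g) z v =
      h * (fderiv ℝ (dx g) z v + (-I) * fderiv ℝ (dy g) z v) := by
    intro v
    rw [← fd_lin h1 h2 h (-I) v]
    have h5 : Dp h g = fun w => (h : ℂ) * (dx g w + -I * dy g w) := by
      funext w
      unfold Dp
      ring
    rw [h5]
  have h4 := symm hB hg hz
  simp only [dx, dy] at h4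
  unfold Dm lap
  simp only [dx, dy] at h3 ⊢
  rw [h3, h3, h4]
  ring_nf
  simp only [I_sq]
  ring

/-- the class of functions -/
def P (B : Set ℂ) (h : ℝ) (g : ℂ → ℂ) : Prop :=
  ContDiffOn ℝ ∞ g B ∧ ∀ z ∈ B, Dp h (Dm h g) z = (-1) * g z

theorem P.other (hB : IsOpen B) {g : ℂ → ℂ} (hg : P B h g) {z : ℂ} (hz : z ∈ B) :
    Dm h (Dp h g) z = (-1) * g z := by
  rw [DmDp hB hg.1 hz, ← DpDm hB hg.1 hz, hg.2 z hz]

theorem P.dp (hB : IsOpen B) {g : ℂ → ℂ} (hg : P B h g) : P B h (Dp h g) := by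
  refine ⟨Dp_smooth hB hg.1, fun z hz => ?_⟩
  rw [Dp_congr hB (fun w hw => hg.other hB hw) hz, Dp_cmul (diffAt hB hg.1 hz)]

theorem P.dm (hB : IsOpen B) {g : ℂ → ℂ} (hg : P B h g) : P B h (Dm h g) := by
  refine ⟨Dm_smooth hB hg.1, fun z hz => ?_⟩
  rw [DpDm hB (Dm_smooth hB hg.1) hz, ← DmDp hB (Dm_smooth hB hg.1) hz,
    Dm_congr hB (fun w hw => hg.2 w hw) hz, Dm_cmul (diffAt hB hg.1 hz)]

theorem fd_ofReal {u : ℂ → ℝ} {z : ℂ} (hu : DifferentiableAt ℝ u z) (v : ℂ) :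
    fderiv ℝ (fun w => (u w : ℂ)) z v = ((fderiv ℝ u z v : ℝ) : ℂ) := by
  have h1 : HasFDerivAt (fun w => (u w : ℂ)) (ofRealCLM.comp (fderiv ℝ u z)) z :=
    ofRealCLM.hasFDerivAt.comp z hu.hasFDerivAt
  rw [h1.fderiv]
  rfl

theorem base (hB : IsOpen B) {u : ℂ → ℝ} (hS : Sol B h u) : P B h (fun z => (u z : ℂ)) := by
  have hsm : ContDiffOn ℝ ∞ (fun z => (u z : ℂ)) B := ofRealCLM.contDiff.comp_contDiffOn hS.smooth
  refine ⟨hsm, fun z hz => ?_⟩
  rw [DpDm hB hsm hz]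
  have h1 : ∀ v : ℂ, ∀ w ∈ B, fderiv ℝ (fun w => (u w : ℂ)) w v = ((fderiv ℝ u w v : ℝ) : ℂ) :=
    fun v w hw => fd_ofReal (diffAt hB hS.smooth hw) v
  have h2 : lap (fun z => (u z : ℂ)) z = ((lap u z : ℝ) : ℂ) := by
    unfold lap
    have h3 : dx (dx (fun z => (u z : ℂ))) z = ((dx (dx u) z : ℝ) : ℂ) := by
      have h4 : fderiv ℝ (dx (fun z => (u z : ℂ))) z = fderiv ℝ (fun w => ((dx u w : ℝ) : ℂ)) z :=
        congr hB (fun w hw => h1 1 w hw) hz
      show fderiv ℝ (dx (fun z => (u z : ℂ))) z 1 = _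
      rw [h4, fd_ofReal (diffAt hB (dx_smooth hB hS.smooth) hz)]
      rfl
    have h3' : dy (dy (fun z => (u z : ℂ))) z = ((dy (dy u) z : ℝ) : ℂ) := by
      have h4 : fderiv ℝ (dy (fun z => (u z : ℂ))) z = fderiv ℝ (fun w => ((dy u w : ℝ) : ℂ)) z :=
        congr hB (fun w hw => h1 I w hw) hz
      show fderiv ℝ (dy (fun z => (u z : ℂ))) z I = _
      rw [h4, fd_ofReal (diffAt hB (dy_smooth hB hS.smooth) hz)]
      rfl
    rw [h3, h3']
    push_cast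
    rfl
  rw [h2]
  have h5 := hS.eq z hz
  have h6 : h ^ 2 * lap u z = - u z := by linarith
  have h7 := congrArg (fun r : ℝ => (r : ℂ)) h6
  push_cast at h7
  rw [h7]
  ring

theorem fd_conj (f : ℂ → ℂ) (z v : ℂ) :
    fderiv ℝ (fun w => (starRingEnd ℂ) (f w)) z v = (starRingEnd ℂ) (fderiv ℝ f z v) := by
  have h1 : fderiv ℝ (conjCLE ∘ f) z = (conjCLE : ℂ →L[ℝ] ℂ).comp (fderiv ℝ f z) :=
    ContinuousLinearEquiv.comp_fderiv conjCLE
  have h2 : (fun w => (starRingEnd ℂ) (f w)) = conjCLE ∘ f := by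
    funext w
    simp
  rw [h2, h1]
  simp

theorem Dm_conj (f : ℂ → ℂ) :
    Dm h (fun w => (starRingEnd ℂ) (f w)) = fun w => (starRingEnd ℂ) (Dp h f w) := by
  funext w
  simp only [Dm, Dp, dx, dy, fd_conj, map_mul, map_sub, conj_I, conj_ofReal]
  ring

theorem iter_conj (f : ℂ → ℂ) (k : ℕ) :
    (Dm h)^[k] (fun w => (starRingEnd ℂ) (f w)) = fun w => (starRingEnd ℂ) ((Dp h)^[k] f w) := by
  induction k with
  | zero => rfl
  | succ k ih =>
    rw [Function.iterate_succ_apply', ih, Dm_conj, Function.iterate_succ_apply']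

theorem conj_Dp (u : ℂ → ℝ) (k : ℕ) (z : ℂ) :
    (starRingEnd ℂ) ((Dp h)^[k] (fun z => (u z : ℂ)) z) = (Dm h)^[k] (fun z => (u z : ℂ)) z := by
  have h1 := congrFun (iter_conj (h := h) (fun z => (u z : ℂ)) k) z
  simp only [conj_ofReal] at h1
  exact h1.symm

theorem conj_Dm (u : ℂ → ℝ) (k : ℕ) (z : ℂ) :
    (starRingEnd ℂ) ((Dm h)^[k] (fun z => (u z : ℂ)) z) = (Dp h)^[k] (fun z => (u z : ℂ)) z := by
  rw [← conj_Dp, conj_conj]

theorem W_nat (u : ℂ → ℝ) (n : ℕ) : W h u (n : ℤ) = (Dp h)^[n] (fun z => (u z : ℂ)) := rfl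

theorem W_neg (u : ℂ → ℝ) (n : ℕ) :
    W h u (-(n : ℤ)) = fun z => (-1) ^ n * (Dm h)^[n] (fun z => (u z : ℂ)) z := by
  cases n with
  | zero =>
    funext z
    show (Dp h)^[0] (fun z => (u z : ℂ)) z = _
    simp
  | succ n => rfl

theorem P_Dp (hB : IsOpen B) {g : ℂ → ℂ} (hg : P B h g) (n : ℕ) : P B h ((Dp h)^[n] g) := by
  induction n with
  | zero => exact hg
  | succ n ih =>
    rw [Function.iterate_succ_apply']
    exact ih.dp hB

theorem P_Dm (hB : IsOpen B) {g : ℂ → ℂ} (hg : P B h g) (n : ℕ) : P B h ((Dm h)^[n] g) := by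
  induction n with
  | zero => exact hg
  | succ n ih =>
    rw [Function.iterate_succ_apply']
    exact ih.dm hB

theorem main : SW := by
  intro B hB h u hS
  have hb := base hB hS
  refine ⟨?_, ?_, ?_, ?_⟩
  · intro k
    rcases Int.eq_nat_or_neg k with ⟨n, rfl | rfl⟩
    · rw [W_nat]
      exact (P_Dp hB hb n).1
    · rw [W_neg]
      exact contDiffOn_const.mul (P_Dm hB hb n).1
  · intro k z hz
    rcases Int.eq_nat_or_neg k with ⟨n, rfl | rfl⟩
    · have h1 : ((n : ℤ) + 1) = ((n + 1 : ℕ) : ℤ) := by push_cast; rfl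
      rw [h1, W_nat, W_nat, Function.iterate_succ_apply']
    · cases n with
      | zero =>
        have h1 : (-((0 : ℕ) : ℤ) + 1) = ((0 + 1 : ℕ) : ℤ) := by norm_num
        have h2 : (-((0 : ℕ) : ℤ)) = ((0 : ℕ) : ℤ) := by norm_num
        rw [h1, h2, W_nat, W_nat, Function.iterate_succ_apply']
      | succ n =>
        have h1 : (-((n + 1 : ℕ) : ℤ) + 1) = -((n : ℕ) : ℤ) := by push_cast; ring
        rw [h1, W_neg, W_neg, Dp_cmul (diffAt hB (P_Dm hB hb (n + 1)).1 hz),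
          Function.iterate_succ_apply', (P_Dm hB hb n).2 z hz]
        ring
  · intro k z hz
    rcases Int.eq_nat_or_neg k with ⟨n, rfl | rfl⟩
    · cases n with
      | zero =>
        have h1 : (((0 : ℕ) : ℤ) - 1) = -((0 + 1 : ℕ) : ℤ) := by norm_num
        have h2 : (((0 : ℕ) : ℤ)) = -((0 : ℕ) : ℤ) := by norm_num
        rw [h1, h2, W_neg, W_neg, Dm_cmul (diffAt hB (P_Dm hB hb 0).1 hz),
          Function.iterate_succ_apply']
        ring
      | succ n =>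
        have h1 : (((n + 1 : ℕ) : ℤ) - 1) = ((n : ℕ) : ℤ) := by push_cast; ring
        rw [h1, W_nat, W_nat, Function.iterate_succ_apply', (P_Dp hB hb n).other hB hz]
        ring
    · have h1 : (-((n : ℕ) : ℤ) - 1) = -((n + 1 : ℕ) : ℤ) := by push_cast; ring
      rw [h1, W_neg, W_neg, Dm_cmul (diffAt hB (P_Dm hB hb n).1 hz), Function.iterate_succ_apply']
      ring
  · intro k z _
    rcases Int.eq_nat_or_neg k with ⟨n, rfl | rfl⟩
    · rw [W_nat, W_neg, conj_Dp, Int.natAbs_natCast]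
      rw [← mul_assoc, ← mul_pow]
      norm_num
    · rw [neg_neg, W_nat, W_neg, map_mul, conj_Dm, Int.natAbs_neg, Int.natAbs_natCast, map_pow]
      simp

end

end Pool.Agent.W924.RW.WP
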